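import Pool.Agent.Lib.MP_b5021c_nt.E1.H80.Iface
import Pool.Agent.Lib.MP_b5021c_nt.B.H36.Evr

/-!
# MP_b5021c_nt, E1 for all `θ ≥ 2`: closings of non-negative elements (rows CLN, CLA)
-/

namespace Pool.Agent.B5.Nr.H43

open Submodule Module
open scoped LaurentPolynomial

section

variable {V : Type} [AddCommGroup V] [Module ℚ V]

lemma clo_apply (l : Dual ℚ V) (β : V) (y : (RO ℤ)ˣ) (c : V →₀ RO ℤ) (v : V) [DecidableEq V] :
    clo l β y c v = ∑ u ∈ c.support, if u - l u • β = v then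
      c u * ((y ^ ⌊l u⌋ : (RO ℤ)ˣ) : RO ℤ) else 0 := by
  unfold clo
  rw [Finsupp.sum_apply]
  unfold Finsupp.sum
  refine Finset.sum_congr rfl fun u _ => ?_
  show (Finsupp.single _ _ : V →₀ RO ℤ) v = _
  rw [Finsupp.single_apply]

lemma mem_cases {c : V →₀ RO ℤ} {β : V} {l : Dual ℚ V} (hf : Vf (Es c) β l) {u : V}
    (hu : u ∈ c.support) : l u = 0 ∨ l u = 1 ∨ l u = -1 := by
  by_cases h0 : u = 0
  · left
    rw [h0, map_zero]
  · exact hf.2 u ⟨h0, Finsupp.mem_support_iff.1 hu⟩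

end

theorem cla : ClaS := by
  classical
  intro V _ _ c β l y hf
  have hβ : β ≠ 0 := by
    rintro rfl
    have := hf.1
    rw [map_zero] at this
    exact zero_ne_one this
  refine ⟨fun v hv => ?_, fun v hv => ?_⟩
  · rw [clo_apply]
    refine Finset.sum_eq_zero fun u _ => ?_
    rw [if_neg]
    rintro rfl
    apply hv
    rw [map_sub, map_smul, hf.1, smul_eq_mul, mul_one, sub_self]
  · rw [clo_apply, ← Finset.sum_filter]
    have h1 : l (v + β) = 1 := by rw [map_add, hv, hf.1, zero_add]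
    have h2 : l (v - β) = -1 := by rw [map_sub, hv, hf.1, zero_sub]
    have hn1 : v ≠ v + β := fun h => hβ (by simpa using h)
    have hn2 : v ≠ v - β := fun h => hβ (sub_eq_self.1 h.symm)
    have hn3 : v + β ≠ v - β := by
      intro h
      have h3 := congrArg l h
      rw [h1, h2] at h3
      norm_num at h3
    have hsub : c.support.filter (fun u => u - l u • β = v) ⊆
        ({v, v + β, v - β} : Finset V) := by
      intro u hu
      rw [Finset.mem_filter] at hu
      rw [Finset.mem_insert, Finset.mem_insert, Finset.mem_singleton]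
      rcases mem_cases hf hu.1 with h | h | h
      · left
        have h3 := hu.2
        rw [h, zero_smul, sub_zero] at h3
        exact h3
      · right; left
        have h3 := hu.2
        rw [h, one_smul] at h3
        exact sub_eq_iff_eq_add.1 h3
      · right; right
        have h3 := hu.2
        rw [h, neg_smul, one_smul, sub_neg_eq_add] at h3
        exact eq_sub_of_add_eq h3
    rw [Finset.sum_subset hsub]
    · rw [Finset.sum_insert, Finset.sum_insert, Finset.sum_singleton, hv, h1, h2]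
      · have e0 : ⌊(0 : ℚ)⌋ = 0 := Int.floor_zero
        have e1 : ⌊(1 : ℚ)⌋ = 1 := Int.floor_one
        have e2 : ⌊(-1 : ℚ)⌋ = -1 := by norm_num
        rw [e0, e1, e2, zpow_zero, zpow_one, zpow_neg_one, Units.val_one, mul_one, add_assoc]
      · rw [Finset.mem_singleton]
        exact hn3
      · rw [Finset.mem_insert, Finset.mem_singleton]
        rintro (h | h)
        · exact hn1 h
        · exact hn2 h
    · intro u hu hu2
      have h3 : u - l u • β = v := by
        rw [Finset.mem_insert, Finset.mem_insert, Finset.mem_singleton] at hu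
        rcases hu with rfl | rfl | rfl
        · rw [hv, zero_smul, sub_zero]
        · rw [h1, one_smul, add_sub_cancel_right]
        · rw [h2, neg_smul, one_smul, sub_neg_eq_add, sub_add_cancel]
      have h4 : c u = 0 := by
        by_contra h5
        exact hu2 (Finset.mem_filter.2 ⟨Finsupp.mem_support_iff.2 h5, h3⟩)
      rw [h4, zero_mul]

/-! ## Loads -/

lemma ld_val (ε : ℤˣ) (m : ℤ) : ((ld ε m : (RO ℤ)ˣ) : RO ℤ) =
    AddMonoidAlgebra.single m (ε : ℤ) := by
  rw [LaurentPolynomial.single_eq_C_mul_T]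
  rfl

lemma ld_inv_val (ε : ℤˣ) (m : ℤ) : (((ld ε m)⁻¹ : (RO ℤ)ˣ) : RO ℤ) =
    AddMonoidAlgebra.single (-m) (ε : ℤ) := by
  have h1 : (((ld ε m)⁻¹ : (RO ℤ)ˣ) : RO ℤ) =
      LaurentPolynomial.C ((ε⁻¹ : ℤˣ) : ℤ) * LaurentPolynomial.T (-m) := rfl
  rw [h1, Int.units_inv_eq_self ε, LaurentPolynomial.single_eq_C_mul_T]

lemma conj_int (x : ℤ) : Coef.conj x = x := rfl

lemma rsh_ld (ε : ℤˣ) (m : ℤ) : rsh ((ld ε m : (RO ℤ)ˣ) : RO ℤ) =
    (((ld ε m)⁻¹ : (RO ℤ)ˣ) : RO ℤ) := by
  rw [ld_val, ld_inv_val, H36.rsh_single, conj_int]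

lemma rsh_ld_inv (ε : ℤˣ) (m : ℤ) : rsh (((ld ε m)⁻¹ : (RO ℤ)ˣ) : RO ℤ) =
    ((ld ε m : (RO ℤ)ˣ) : RO ℤ) := by
  rw [ld_val, ld_inv_val, H36.rsh_single, conj_int, neg_neg]

section

variable {V : Type} [AddCommGroup V] [Module ℚ V]

/-- The character extended along `l`. -/
noncomputable def chx (l : Dual ℚ V) (β : V) (t : ℝ) (χ : AddChar V Circle) :
    AddChar V Circle where
  toFun v := χ (v - l v • β) * Circle.exp (t * ((l v : ℚ) : ℝ))
  map_zero_eq_one' := by
    rw [map_zero, zero_smul, sub_zero, AddChar.map_zero_eq_one, Rat.cast_zero, mul_zero,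
      Circle.exp_zero, mul_one]
  map_add_eq_mul' u v := by
    have h1 : u + v - l (u + v) • β = (u - l u • β) + (v - l v • β) := by
      rw [map_add, add_smul]
      abel
    rw [h1, AddChar.map_add_eq_mul, map_add, Rat.cast_add, mul_add, Circle.exp_add]
    exact mul_mul_mul_comm _ _ _ _

lemma chx_apply (l : Dual ℚ V) (β : V) (t : ℝ) (χ : AddChar V Circle) (v : V) :
    chx l β t χ v = χ (v - l v • β) * Circle.exp (t * ((l v : ℚ) : ℝ)) := rfl

lemma vz_clo (l : Dual ℚ V) (β : V) (y : (RO ℤ)ˣ) (c : V →₀ RO ℤ) (hf : Vf (Es c) β l)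
    (z : Circle) (χ : AddChar V Circle) (t : ℝ)
    (ht : ((Circle.exp t : Circle) : ℂ) = evR z (y : RO ℤ)) :
    vz (clo l β y c) z χ = vz c z (chx l β t χ) := by
  unfold vz clo
  rw [Finsupp.sum_sum_index]
  · unfold Finsupp.sum
    refine Finset.sum_congr rfl fun v hv => ?_
    have h1 : (((Finsupp.single (v - l v • β) (c v * ((y ^ ⌊l v⌋ : (RO ℤ)ˣ) : RO ℤ))) :
        V →₀ RO ℤ).sum fun v p => evR z p * (χ v : ℂ)) =
        evR z (c v * ((y ^ ⌊l v⌋ : (RO ℤ)ˣ) : RO ℤ)) * (χ (v - l v • β) : ℂ) := by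
      rw [Finsupp.sum_single_index]
      rw [map_zero, zero_mul]
    refine h1.trans ?_
    have h2 : ((chx l β t χ v : Circle) : ℂ) = (χ (v - l v • β) : ℂ) *
        ((Circle.exp (t * ((l v : ℚ) : ℝ)) : Circle) : ℂ) := by
      rw [chx_apply, Circle.coe_mul]
    show _ = evR z (c v) * ((chx l β t χ v : Circle) : ℂ)
    rw [h2, map_mul, mul_assoc, mul_comm (χ (v - l v • β) : ℂ)]
    congr 2
    have e0 : ⌊(0 : ℚ)⌋ = 0 := Int.floor_zero
    have e1 : ⌊(1 : ℚ)⌋ = 1 := Int.floor_one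
    have e2 : ⌊(-1 : ℚ)⌋ = -1 := by norm_num
    rcases mem_cases hf hv with h | h | h
    · rw [h, e0, zpow_zero, Units.val_one, map_one, Rat.cast_zero, mul_zero, Circle.exp_zero,
        Circle.coe_one]
    · rw [h, e1, zpow_one, Rat.cast_one, mul_one, ht]
    · rw [h, e2, zpow_neg_one, Rat.cast_neg, Rat.cast_one, mul_neg_one, Circle.exp_neg,
        Circle.coe_inv, ht]
      refine eq_inv_of_mul_eq_one_left ?_
      rw [← map_mul, Units.inv_mul, map_one]
  · intro a
    rw [map_zero, zero_mul]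
  · intro a b₁ b₂
    rw [map_add, add_mul]

end

theorem cln : ClnS := by
  classical
  intro V _ _ c β l ε m hc hf
  refine ⟨fun v => ?_, fun z χ => ?_⟩
  · obtain ⟨h1, h2⟩ := cla V c β l (ld ε m) hf
    by_cases hv : l v = 0
    · have hv' : l (-v) = 0 := by rw [map_neg, hv, neg_zero]
      rw [h2 v hv, h2 (-v) hv', map_add rsh, map_add rsh, map_mul rsh, map_mul rsh, rsh_ld,
        rsh_ld_inv,
        ← hc.1 v, ← hc.1 (v + β), ← hc.1 (v - β)]
      have e1 : -(v + β) = -v - β := by abel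
      have e2 : -(v - β) = -v + β := by abel
      rw [e1, e2]
      ring
    · have hv' : l (-v) ≠ 0 := by rwa [map_neg, neg_ne_zero]
      rw [h1 v hv, h1 (-v) hv', map_zero]
  · have h1 : ‖evR z ((ld ε m : (RO ℤ)ˣ) : RO ℤ)‖ = 1 :=
      H36.norm_evR_unit z _ (Units.isUnit _)
    let w : Circle := ⟨evR z ((ld ε m : (RO ℤ)ˣ) : RO ℤ), mem_sphere_zero_iff_norm.2 h1⟩
    have hw : ((Circle.exp (Complex.arg (w : ℂ)) : Circle) : ℂ) =
        evR z ((ld ε m : (RO ℤ)ˣ) : RO ℤ) := by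
      rw [Circle.exp_arg w]
    rw [vz_clo l β (ld ε m) c hf z χ _ hw]
    exact hc.2 z _

end Pool.Agent.B5.Nr.H43
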